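import Mathlib
import Pool.Agent.Q60.MU.Ram

/-!
# The maximal ideals of the ring of all algebraic integers and valuation rings

The lemma `dich` is copied from `Pool.Agent.Y219.PC.CHD`.
-/

set_option autoImplicit false

namespace Pool.Agent.K4H94.IW

open Pool.Agent.Q60.MU NumberField
open scoped Pointwise

/-- a quotient of elements of a Dedekind domain, localized at a prime ideal -/
lemma dich {O L : Type} [CommRing O] [IsDedekindDomain O] [Field L] [Algebra O L]
    [IsFractionRing O L] (P : Ideal O) [hP : P.IsPrime] (hP0 : P ≠ ⊥) (x : L) :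
    ∃ c s : O, s ∉ P ∧ (x * algebraMap O L s = algebraMap O L c ∨
      x * algebraMap O L c = algebraMap O L s) := by
  have hdvr : IsDiscreteValuationRing (Localization.AtPrime P) :=
    IsLocalization.AtPrime.isDiscreteValuationRing_of_dedekind_domain O hP0 (Localization.AtPrime P)
  obtain ⟨a, b, hb, rfl⟩ := IsFractionRing.div_surjective (A := O) x
  have hb0 : b ≠ 0 := nonZeroDivisors.ne_zero hb
  have hinj : Function.Injective (algebraMap O (Localization.AtPrime P)) :=
    IsLocalization.injective _ (Ideal.primeCompl_le_nonZeroDivisors P)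
  have hbL : algebraMap O L b ≠ 0 := by
    rw [Ne, IsFractionRing.to_map_eq_zero_iff]; exact hb0
  have key : ∀ u v : O, algebraMap O (Localization.AtPrime P) u ∣
      algebraMap O (Localization.AtPrime P) v → ∃ c s : O, s ∉ P ∧ v * s = u * c := by
    rintro u v ⟨q, hq⟩
    obtain ⟨c, s, rfl⟩ := IsLocalization.exists_mk'_eq P.primeCompl q
    refine ⟨c, s, s.2, hinj ?_⟩
    rw [map_mul, map_mul, hq, mul_assoc, IsLocalization.mk'_spec]
  rcases ValuationRing.dvd_total (algebraMap O (Localization.AtPrime P) b)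
    (algebraMap O (Localization.AtPrime P) a) with h | h
  · obtain ⟨c, s, hs, e⟩ := key b a h
    refine ⟨c, s, hs, Or.inl ?_⟩
    rw [div_mul_eq_mul_div, div_eq_iff hbL, ← map_mul, ← map_mul, e, mul_comm]
  · obtain ⟨c, s, hs, e⟩ := key a b h
    refine ⟨c, s, hs, Or.inr ?_⟩
    rw [div_mul_eq_mul_div, div_eq_iff hbL, ← map_mul, ← map_mul, ← e, mul_comm]

abbrev Oc := RingOfIntegers (AlgebraicClosure ℚ)

/-- the elements of the localization -/
def carr (P : Ideal Oc) : Set Qb := {x | ∃ a s : Oc, s ∉ P ∧ x * algebraMap Oc Qb s = algebraMap Oc Qb a}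

theorem mem_or (P : Ideal Oc) (hP : P.IsMaximal) (x : Qb) : x ∈ carr P ∨ x⁻¹ ∈ carr P := by
  have hx : IsIntegral ℚ x := ((AlgebraicClosure.isAlgebraic ℚ).isAlgebraic x).isIntegral
  let K : IntermediateField ℚ Qb := IntermediateField.adjoin ℚ {x}
  have hfin : FiniteDimensional ℚ K := IntermediateField.adjoin.finiteDimensional hx
  have hNF : NumberField K := ⟨⟩
  let f : 𝓞 K →+* Oc := algebraMap (𝓞 K) Oc
  have hf : ∀ y : 𝓞 K, algebraMap Oc Qb (f y) = ((y : K) : Qb) := fun y => rfl
  let 𝔭 : Ideal (𝓞 K) := P.comap f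
  have hprime : 𝔭.IsPrime := Ideal.comap_isPrime f P
  have h0 : 𝔭 ≠ ⊥ := by
    have hint : Algebra.IsIntegral ℤ Oc := inferInstance
    have hm : (P.comap (algebraMap ℤ Oc)).IsMaximal :=
      Ideal.isMaximal_comap_of_isIntegral_of_isMaximal P
    have hne : P.comap (algebraMap ℤ Oc) ≠ ⊥ := by
      intro h
      rw [h] at hm
      exact Int.not_isField ((Ring.isField_iff_maximal_bot).2 hm)
    obtain ⟨n, hn, hn0⟩ := Submodule.exists_mem_ne_zero_of_ne_bot hne
    intro h
    have h1 : (n : 𝓞 K) ∈ 𝔭 := by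
      change f (n : 𝓞 K) ∈ P
      rw [map_intCast]
      have h2 : algebraMap ℤ Oc n ∈ P := hn
      rwa [eq_intCast] at h2
    rw [h, Ideal.mem_bot] at h1
    exact hn0 (by exact_mod_cast h1)
  obtain ⟨c, s, hs, h | h⟩ := dich (O := 𝓞 K) (L := K) 𝔭 h0 (IntermediateField.AdjoinSimple.gen ℚ x)
  · left
    refine ⟨f c, f s, hs, ?_⟩
    have h1 := congrArg (fun z : K => (z : Qb)) h
    exact h1
  · right
    refine ⟨f c, f s, hs, ?_⟩
    have h1 : x * ((c : K) : Qb) = ((s : K) : Qb) := congrArg (fun z : K => (z : Qb)) h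
    have hs0 : ((s : K) : Qb) ≠ 0 := by
      intro h2
      apply hs
      have h3 : s = 0 := by
        apply RingOfIntegers.ext
        apply Subtype.ext
        exact h2
      rw [h3]
      exact zero_mem _
    have hx0 : x ≠ 0 := by
      rintro rfl
      rw [zero_mul] at h1
      exact hs0 h1.symm
    rw [hf, hf, ← h1, inv_mul_cancel_left₀ hx0]

/-- the valuation ring of a maximal ideal -/
def valR (P : Ideal Oc) (hP : P.IsMaximal) : ValuationSubring Qb where
  carrier := carr P
  mul_mem' := by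
    rintro x y ⟨a, s, hs, h⟩ ⟨b, t, ht, k⟩
    refine ⟨a * b, s * t, fun h1 => (hP.isPrime.mem_or_mem h1).elim hs ht, ?_⟩
    rw [map_mul, map_mul, ← h, ← k]
    ring
  one_mem' := ⟨1, 1, fun h => hP.ne_top ((Ideal.eq_top_iff_one P).2 h), by rw [map_one, one_mul]⟩
  add_mem' := by
    rintro x y ⟨a, s, hs, h⟩ ⟨b, t, ht, k⟩
    refine ⟨a * t + b * s, s * t, fun h1 => (hP.isPrime.mem_or_mem h1).elim hs ht, ?_⟩
    rw [map_mul, map_add, map_mul, map_mul, ← h, ← k]
    ring
  zero_mem' := ⟨0, 1, fun h => hP.ne_top ((Ideal.eq_top_iff_one P).2 h), by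
    rw [map_zero, zero_mul]⟩
  neg_mem' := by
    rintro x ⟨a, s, hs, h⟩
    exact ⟨-a, s, hs, by rw [map_neg, neg_mul, h]⟩
  mem_or_inv_mem' := mem_or P hP

theorem mem_valR {P : Ideal Oc} {hP : P.IsMaximal} {x : Qb} :
    x ∈ valR P hP ↔ ∃ a s : Oc, s ∉ P ∧ x * algebraMap Oc Qb s = algebraMap Oc Qb a := Iff.rfl

theorem nonunit_of {P : Ideal Oc} {hP : P.IsMaximal} {z : Qb} {u p : Oc} (hu : u ∉ P) (hp : p ∈ P)
    (h : z * algebraMap Oc Qb u = algebraMap Oc Qb p) : z ∈ (valR P hP).nonunits := by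
  rw [ValuationSubring.mem_nonunits_iff_or]
  by_cases hz : z = 0
  · exact Or.inl hz
  · right
    rintro ⟨a, s, hs, k⟩
    have h1 : s * u = a * p := by
      apply RingOfIntegers.ext
      change algebraMap Oc Qb (s * u) = algebraMap Oc Qb (a * p)
      rw [map_mul, map_mul, ← h, ← k]
      field_simp
    have h2 : s * u ∈ P := by
      rw [h1]
      exact P.mul_mem_left _ hp
    exact (hP.isPrime.mem_or_mem h2).elim hs hu

theorem val : ∀ P : Ideal (NumberField.RingOfIntegers (AlgebraicClosure ℚ)), P.IsMaximal →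
    ∃ A : ValuationSubring Qb,
      (∀ x : NumberField.RingOfIntegers (AlgebraicClosure ℚ), (x : Qb) ∈ A.nonunits ↔ x ∈ P) ∧
      ∀ τ : Gal(Qb/ℚ), (∀ x : NumberField.RingOfIntegers (AlgebraicClosure ℚ), τ • x - x ∈ P) →
        τ ∈ inertia A := by
  intro P hP
  refine ⟨valR P hP, fun x => ⟨fun h => ?_, fun h => ?_⟩, ?_⟩
  · by_contra hx
    rw [ValuationSubring.mem_nonunits_iff_or] at h
    have hx0 : algebraMap Oc Qb x ≠ 0 := by
      intro h1
      apply hx
      have h3 : x = 0 := RingOfIntegers.ext h1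
      rw [h3]
      exact zero_mem _
    rcases h with h | h
    · exact hx0 h
    · exact h ⟨1, x, hx, by rw [map_one, inv_mul_cancel₀ hx0]⟩
  · exact nonunit_of (fun h => hP.ne_top ((Ideal.eq_top_iff_one P).2 h)) h (by rw [map_one, mul_one])
  · have hmem : ∀ τ : Gal(Qb/ℚ), (∀ x : Oc, τ • x - x ∈ P) → ∀ x ∈ valR P hP, τ x ∈ valR P hP := by
      rintro τ hτ x ⟨a, s, hs, h⟩
      refine ⟨τ • a, τ • s, fun h1 => hs ?_, ?_⟩
      · have h2 := P.sub_mem h1 (hτ s)
        rwa [sub_sub_cancel] at h2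
      · have h2 := congrArg τ h
        rw [map_mul] at h2
        exact h2
    intro τ hτ
    have hτ' : ∀ x : Oc, τ⁻¹ • x - x ∈ P := fun x => by
      have h1 := P.neg_mem (hτ (τ⁻¹ • x))
      rwa [smul_inv_smul, neg_sub] at h1
    rw [mem_inertia]
    refine ⟨?_, ?_⟩
    · ext x
      rw [ValuationSubring.mem_pointwise_smul_iff_inv_smul_mem]
      constructor
      · intro h
        have h1 := hmem τ hτ _ h
        have h2 : τ (τ⁻¹ • x) = x := by
          change τ (τ⁻¹ x) = x
          rw [← AlgEquiv.mul_apply, mul_inv_cancel, AlgEquiv.one_apply]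
        rwa [h2] at h1
      · exact fun h => hmem τ⁻¹ hτ' x h
    · rintro x ⟨a, s, hs, h⟩
      have hs' : τ • s ∉ P := fun h1 => hs (by
        have h2 := P.sub_mem h1 (hτ s)
        rwa [sub_sub_cancel] at h2)
      refine nonunit_of (u := s * τ • s) (p := (τ • a - a) * s - a * (τ • s - s))
        (fun h1 => (hP.isPrime.mem_or_mem h1).elim hs hs')
        (P.sub_mem (P.mul_mem_right _ (hτ a)) (P.mul_mem_left _ (hτ s))) ?_
      have h2 : τ x * algebraMap Oc Qb (τ • s) = algebraMap Oc Qb (τ • a) := by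
        have h2 := congrArg τ h
        rw [map_mul] at h2
        exact h2
      rw [map_sub, map_mul, map_mul, map_mul, map_sub, map_sub, ← h2, ← h]
      ring

end Pool.Agent.K4H94.IW
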