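import Pool.Agent.Q60.MU.Fields
import Pool.Agent.K4H94.IW.Val
import Pool.Agent.Y536.PS.CONJ

/-!
# The valuation rings above a prime number are conjugate

The lemmas are copied from `Pool.Agent.Y219.PC.CHD` and `Pool.Agent.K4H24.IW.Dens`, in order to have
few imports.
-/

set_option autoImplicit false

namespace Pool.Agent.K4H94.IW

open Pool.Agent.Q60.MU NumberField
open scoped Pointwise

/-- a valuation ring is determined by its centre on a Dedekind domain -/
lemma unique {O L : Type} [CommRing O] [IsDedekindDomain O] [Field L] [Algebra O L]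
    [IsFractionRing O L] (P : Ideal O) [hP : P.IsPrime] (hP0 : P ≠ ⊥) (A A' : ValuationSubring L)
    (h1 : ∀ x : O, algebraMap O L x ∈ A) (h1' : ∀ x : O, algebraMap O L x ∈ A')
    (h2 : ∀ x : O, algebraMap O L x ∈ A.nonunits ↔ x ∈ P)
    (h2' : ∀ x : O, algebraMap O L x ∈ A'.nonunits ↔ x ∈ P) : A = A' := by
  have hone : ∀ (C : ValuationSubring L), (∀ x : O, algebraMap O L x ∈ C) →
      (∀ x : O, algebraMap O L x ∈ C.nonunits ↔ x ∈ P) → ∀ (x : L) (c s : O), s ∉ P →
      (x * algebraMap O L s = algebraMap O L c → x ∈ C) ∧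
      (x * algebraMap O L c = algebraMap O L s → (x ∈ C ↔ c ∉ P)) := by
    intro C hC1 hC2 x c s hs
    have hval : ∀ y : O, C.valuation (algebraMap O L y) ≤ 1 := fun y =>
      (C.valuation_le_one_iff _).2 (hC1 y)
    have hval1 : ∀ y : O, y ∉ P → C.valuation (algebraMap O L y) = 1 := fun y hy =>
      le_antisymm (hval y) (not_lt.1 fun h => hy ((hC2 y).1 (C.mem_nonunits_iff.2 h)))
    constructor
    · intro h
      rw [← C.valuation_le_one_iff]
      have := congrArg C.valuation h
      rw [map_mul, hval1 s hs, mul_one] at this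
      rw [this]; exact hval c
    · intro h
      have := congrArg C.valuation h
      rw [map_mul, hval1 s hs] at this
      constructor
      · intro hx hc
        have hlt : C.valuation (algebraMap O L c) < 1 := C.mem_nonunits_iff.1 ((hC2 c).2 hc)
        have hx1 := (C.valuation_le_one_iff _).2 hx
        have : C.valuation x * C.valuation (algebraMap O L c) < 1 :=
          lt_of_le_of_lt (mul_le_of_le_one_left' hx1) hlt
        exact absurd ‹C.valuation x * C.valuation (algebraMap O L c) = 1› this.ne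
      · intro hc
        rw [hval1 c hc, mul_one] at this
        rw [← C.valuation_le_one_iff, this]
  ext x
  obtain ⟨c, s, hs, h | h⟩ := dich P hP0 x
  · exact ⟨fun _ => (hone A' h1' h2' x c s hs).1 h, fun _ => (hone A h1 h2 x c s hs).1 h⟩
  · rw [(hone A h1 h2 x c s hs).2 h, (hone A' h1' h2' x c s hs).2 h]

lemma non_iff {K : Type} [Field K] (A : ValuationSubring K) (z : K) :
    z ∈ A.nonunits ↔ z ∈ A ∧ (z = 0 ∨ z⁻¹ ∉ A) := by
  rw [A.mem_nonunits_iff, ← A.valuation_le_one_iff z, ← A.valuation_le_one_iff z⁻¹]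
  rcases eq_or_ne z 0 with rfl | hz
  · simp
  · have h0 : A.valuation z ≠ 0 := (Valuation.ne_zero_iff _).2 hz
    constructor
    · intro h
      refine ⟨h.le, Or.inr ?_⟩
      rw [map_inv₀, not_le]
      exact (one_lt_inv₀ (zero_lt_iff.2 h0)).2 h
    · rintro ⟨h, h' | h'⟩
      · exact absurd h' hz
      · rw [map_inv₀, not_le] at h'
        exact (one_lt_inv₀ (zero_lt_iff.2 h0)).1 h'

lemma non_comap {K L : Type} [Field K] [Field L] (V : ValuationSubring L) (f : K →+* L) (z : K) :
    z ∈ (V.comap f).nonunits ↔ f z ∈ V.nonunits := by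
  rw [non_iff, non_iff, ValuationSubring.mem_comap, ValuationSubring.mem_comap, map_inv₀,
    map_eq_zero]

/-- the valuation rings above `p` are conjugate -/
theorem exists_smul_eq' {p : ℕ} (hp : p.Prime) (A B : ValuationSubring Qb)
    (hA : (p : Qb) ∈ A.nonunits) (hB : (p : Qb) ∈ B.nonunits) : ∃ g : Gal(Qb/ℚ), A = g • B := by
  have hP0 : Ideal.span {(p : ℤ)} ≠ ⊥ := by
    rw [Ne, Ideal.span_singleton_eq_bot]
    exact_mod_cast hp.ne_zero
  have hPp : (Ideal.span {(p : ℤ)}).IsPrime := by
    rw [Ideal.span_singleton_prime (by exact_mod_cast hp.ne_zero)]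
    exact Nat.prime_iff_prime_int.1 hp
  have key : ∀ C : ValuationSubring Qb, (p : Qb) ∈ C.nonunits →
      (∀ x : ℤ, algebraMap ℤ ℚ x ∈ C.comap (algebraMap ℚ Qb)) ∧
      ∀ x : ℤ, algebraMap ℤ ℚ x ∈ (C.comap (algebraMap ℚ Qb)).nonunits ↔
        x ∈ Ideal.span {(p : ℤ)} := by
    intro C hC
    have hcast : ∀ x : ℤ, algebraMap ℚ Qb (algebraMap ℤ ℚ x) = (x : Qb) := fun x => by simp
    have hint : ∀ x : ℤ, (x : Qb) ∈ C := fun x => integral_mem C (isIntegral_algebraMap (R := ℤ) (A := Qb) (x := x))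
    refine ⟨fun x => ?_, fun x => ?_⟩
    · rw [ValuationSubring.mem_comap, hcast]
      exact hint x
    · rw [non_comap, hcast, Ideal.mem_span_singleton]
      constructor
      · intro hx
        by_contra hpx
        have h1 : IsCoprime (p : ℤ) x :=
          (Prime.coprime_iff_not_dvd (Nat.prime_iff_prime_int.1 hp)).2 hpx
        obtain ⟨u, v, huv⟩ := h1
        have h2 : (1 : Qb) = (p : Qb) * (u : Qb) + (x : Qb) * (v : Qb) := by
          have h3 := congrArg (fun z : ℤ => (z : Qb)) huv
          simp only [Int.cast_add, Int.cast_mul, Int.cast_one, Int.cast_natCast] at h3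
          rw [← h3]
          ring
        have h4 : (1 : Qb) ∈ C.nonunits := by
          rw [h2]
          exact add_mem (mul_nonunits hC (hint u)) (mul_nonunits hx (hint v))
        rw [ValuationSubring.mem_nonunits_iff, map_one] at h4
        exact lt_irrefl _ h4
      · rintro ⟨y, rfl⟩
        rw [Int.cast_mul, Int.cast_natCast]
        exact mul_nonunits hC (hint y)
  obtain ⟨a1, a2⟩ := key A hA
  obtain ⟨b1, b2⟩ := key B hB
  have h1 := unique (O := ℤ) (L := ℚ) (Ideal.span {(p : ℤ)}) hP0 _ _ b1 a1 b2 a2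
  have hno : Normal ℚ Qb := IsGalois.to_normal
  obtain ⟨γ, hγ⟩ := Pool.Agent.Y536.PS.conj ℚ Qb B A h1
  refine ⟨γ⁻¹, ?_⟩
  ext z
  rw [ValuationSubring.mem_inv_pointwise_smul_iff]
  exact hγ z

end Pool.Agent.K4H94.IW
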