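import Pool.Agent.K4H43.IW.Stm
import Pool.Agent.K4H94.IW.Val
import Pool.Agent.K4H94.IW.Conj
import Pool.Agent.W215.FM.Gen

/-!
# The class numbers of the layers of the cyclotomic `ℤ_p`-extension of `ℚ`
-/

set_option autoImplicit false

namespace Pool.Agent.K4H94.IW

open Subgroup Module IntermediateField Pool.Agent.Q60.MU Pool.Agent.K4H24.IW Pool.Agent.K4H43.IW
open scoped Pointwise

/-- Minkowski: the inertia groups generate. -/
theorem mink {E : Type} [Group E] (f : Gal(Qb/ℚ) →* E) (hf : IsOpen (f.ker : Set Gal(Qb/ℚ)))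
    (hI : ∀ A : ValuationSubring Qb, ∀ τ ∈ inertia A, f τ = 1) : ∀ g, f g = 1 :=
  Pool.Agent.W215.FM.main E f hf fun P hP τ hτ => by
    obtain ⟨A, -, h2⟩ := val P hP
    exact hI A τ (h2 τ hτ)

theorem qq : S_QQ := by
  intro p hp hp2 R hR m W hWK hWo hWf hg
  obtain ⟨hfd, hN, hidx, -, hram⟩ := cyc_facts hp2 hR m
  obtain ⟨K, hK⟩ : ∃ K, K = (R m).fixingSubgroup := ⟨_, rfl⟩
  rw [← hK] at hWK hWf hg hN hidx hram ⊢
  have hrel : K.relIndex ⊤ ≠ 0 := by
    rw [relIndex_top_right, hidx]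
    exact pow_ne_zero _ hp.1.ne_zero
  obtain ⟨W', hW'W, hW'o, hW'f, hg', hn'⟩ := exists_core (p := p) (I := inertia) inertia_conj
    (K := K) (D := ⊤) (fun d _ x hx => hN.conj_mem x hx d) hrel hWK hWo hWf hg
  have hW'K : W' ≤ K := hW'W.trans hWK
  suffices h : K ≤ W' by
    have h1 : W = K := le_antisymm hWK (h.trans hW'W)
    rw [h1, relIndex_self]
  have hW'n : W'.Normal := ⟨fun x hx g => hn' g trivial x hx⟩
  have hWi : W'.index ≠ 0 := by
    rw [← relIndex_mul_index hW'K, hidx]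
    exact mul_ne_zero hW'f (pow_ne_zero _ hp.1.ne_zero)
  have hfi : W'.FiniteIndex := ⟨hWi⟩
  have hfin : Finite (Gal(Qb/ℚ) ⧸ W') := inferInstance
  obtain ⟨π, hπ⟩ : ∃ π : Gal(Qb/ℚ) →* Gal(Qb/ℚ) ⧸ W', π = QuotientGroup.mk' W' := ⟨_, rfl⟩
  have hπs : Function.Surjective π := by
    rw [hπ]
    exact QuotientGroup.mk'_surjective _
  have hπ1 : ∀ x, π x = 1 ↔ x ∈ W' := fun x => by
    rw [hπ, QuotientGroup.mk'_apply, QuotientGroup.eq_one_iff]
  -- inertia groups
  have hin : ∀ (A : ValuationSubring Qb), ∀ σ ∈ inertia A, σ ∈ K → σ ∈ W' := fun A σ hσ hσK =>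
    hg' (Or.inr ⟨hσK, A, hσ⟩)
  have hout : ∀ (A : ValuationSubring Qb), (p : Qb) ∉ A.nonunits → ∀ σ ∈ inertia A, σ ∈ W' :=
    fun A hA σ hσ => hin A σ hσ (by
      by_contra h
      exact hA (hram A σ hσ h))
  -- the quotient is a `p`-group
  have hpG : IsPGroup p (Gal(Qb/ℚ) ⧸ W') := by
    intro x
    obtain ⟨g, rfl⟩ := hπs x
    refine ⟨m + 1, ?_⟩
    rw [← map_pow, hπ1, pow_succ, pow_mul]
    refine hg' (Or.inl (Or.inl ⟨g ^ p ^ m, ?_, rfl⟩))
    rw [← hidx]
    exact Subgroup.pow_index_mem K g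
  by_cases hA : ∃ A : ValuationSubring Qb, (p : Qb) ∈ A.nonunits
  · obtain ⟨A₀, hA₀⟩ := hA
    rcases eq_top_or_exists_le_coatom ((inertia A₀).map π) with h | ⟨M, hM, hIM⟩
    · intro k hk
      have h1 : π k ∈ (inertia A₀).map π := by
        rw [h]
        exact mem_top _
      obtain ⟨σ, hσ, h2⟩ := h1
      have h3 : σ⁻¹ * k ∈ W' := by
        rw [← hπ1, map_mul, map_inv, h2, inv_mul_cancel]
      have h4 : σ ∈ K := by
        have h5 := K.mul_mem hk (K.inv_mem (hW'K h3))
        rwa [mul_inv_rev, inv_inv, mul_inv_cancel_left] at h5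
      have h5 := W'.mul_mem (hin A₀ σ hσ h4) h3
      rwa [mul_inv_cancel_left] at h5
    · exfalso
      have hnil : Group.IsNilpotent (Gal(Qb/ℚ) ⧸ W') := hpG.isNilpotent
      have hMn : M.Normal := Subgroup.NormalizerCondition.normal_of_coatom M
        Group.normalizerCondition_of_isNilpotent hM
      have h1 : ∀ g, ((QuotientGroup.mk' M).comp π) g = 1 := by
        refine mink _ ?_ ?_
        · refine Subgroup.isOpen_mono (H₁ := W') ?_ hW'o
          intro x hx
          rw [MonoidHom.mem_ker, MonoidHom.comp_apply, (hπ1 x).2 hx, map_one]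
        · intro A τ hτA
          have h3 : π τ ∈ M := by
            by_cases hpA : (p : Qb) ∈ A.nonunits
            · obtain ⟨g, rfl⟩ := exists_smul_eq' hp.1 A A₀ hpA hA₀
              have h4 := inertia_conj g⁻¹ (g • A₀) τ hτA
              rw [inv_smul_smul, inv_inv] at h4
              have h5 : π (g⁻¹ * τ * g) ∈ M := hIM ⟨_, h4, rfl⟩
              have h6 := hMn.conj_mem _ h5 (π g)
              rw [← map_inv, ← map_mul, ← map_mul] at h6
              have h7 : g * (g⁻¹ * τ * g) * g⁻¹ = τ := by group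
              rwa [h7] at h6
            · rw [(hπ1 τ).2 (hout A hpA τ hτA)]
              exact M.one_mem
          rw [MonoidHom.comp_apply, QuotientGroup.mk'_apply, QuotientGroup.eq_one_iff]
          exact h3
      apply hM.1
      rw [eq_top_iff]
      intro x _
      obtain ⟨g, rfl⟩ := hπs x
      have h2 := h1 g
      rwa [MonoidHom.comp_apply, QuotientGroup.mk'_apply, QuotientGroup.eq_one_iff] at h2
  · push Not at hA
    intro k _
    rw [← hπ1]
    refine mink π ?_ ?_ k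
    · refine Subgroup.isOpen_mono (H₁ := W') ?_ hW'o
      intro x hx
      rw [MonoidHom.mem_ker, (hπ1 x).2 hx]
    · intro A τ hτ
      rw [hπ1]
      exact hout A (hA A) τ hτ

end Pool.Agent.K4H94.IW
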